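import Pool.Agent.Lib.MP_a60258_hol.Defs

/-!
# Modules IDEN and KZERO: the row rule
-/

open Finset

namespace Pool.Agent.Hol.H86

/-- the denominator of the kernel, as a polynomial -/
noncomputable def Zp (p c y11 y12 y21 y22 : ℝ) : ℝ :=
  (p - c) / 2 * (y11 * y12 * y21 + y11 * y12 * y22 + y11 * y21 * y22 + y12 * y21 * y22)
    - (y21 + y22 - y11 - y12) / 2 * ((y12 + y22 - y11 - y21) / 2) * (y11 * y22 - y12 * y21)
    + ((p - c) / 2) ^ 2 * (((p + c) / 2) ^ 2 - ((y21 + y22 - y11 - y12) / 2) ^ 2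
      - ((y12 + y22 - y11 - y21) / 2) ^ 2 + ((y11 + y22 - y12 - y21) / 2) ^ 2) / 2

/-- the numerator of the kernel, as a polynomial -/
noncomputable def Gp (p c y11 y12 y21 y22 : ℝ) : ℝ :=
  ((y11 + y12) * (y21 + y22) * ((y11 + y21) * (y12 + y22)) + (y11 * y22 - y12 * y21) ^ 2) / 2
    + (p - c) / 2 * (y11 * y12 * y21 + y11 * y12 * y22 + y11 * y21 * y22 + y12 * y21 * y22)

theorem Z_eq {p c y11 y12 y21 y22 : ℝ} (h : y11 + y12 + y21 + y22 = p + c) (hP : p + c ≠ 0) :
    (p * ((p - c) / 2) * ((y11 + y12) * (y21 + y22) * (y11 + y21) * (y12 + y22))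
      - 2 * c * p * ((p - (y11 + y12)) - (p - c) / 2) * ((p - (y11 + y21)) - (p - c) / 2)
        * (y11 * y22 - y12 * y21)
      - c * ((p - c) / 2) * (y11 * y22 - y12 * y21) ^ 2) / (2 * ((p + c) / 2) ^ 2)
      = Zp p c y11 y12 y21 y22 := by
  have hc : c = y11 + y12 + y21 + y22 - p := by linarith
  subst hc
  rw [div_eq_iff (by
    have : (p + (y11 + y12 + y21 + y22 - p)) / 2 ≠ 0 := div_ne_zero hP two_ne_zero
    positivity), Zp]
  ring

theorem G_eq {p c y11 y12 y21 y22 : ℝ} (h : y11 + y12 + y21 + y22 = p + c) (hP : p + c ≠ 0) :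
    (p * ((y11 + y12) * (y21 + y22) * (y11 + y21) * (y12 + y22))
      + c * (y11 * y22 - y12 * y21) ^ 2) / (2 * ((p + c) / 2)) = Gp p c y11 y12 y21 y22 := by
  have hc : c = y11 + y12 + y21 + y22 - p := by linarith
  subst hc
  rw [div_eq_iff (by
    have : (p + (y11 + y12 + y21 + y22 - p)) / 2 ≠ 0 := div_ne_zero hP two_ne_zero
    positivity), Gp]
  ring

/-- positivity of the denominator -/
theorem Z_pos_aux {p c A A' x x' t : ℝ} (hc : 0 ≤ c) (hcp : c < p)
    (hA : A = ((p + c) / 2) ^ 2 - x ^ 2) (hA' : A' = ((p + c) / 2) ^ 2 - x' ^ 2)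
    (hpA : p * c < A) (hpA' : p * c < A') (ht : 0 ≤ t) (htA : t ≤ A) (htA' : t ≤ A') :
    c * p * (x ^ 2 + x' ^ 2) * t + c * ((p - c) / 2) * t ^ 2 < p * ((p - c) / 2) * (A * A') := by
  have hp : 0 < p := by linarith
  have key : ∀ {A A' x x' : ℝ}, A = ((p + c) / 2) ^ 2 - x ^ 2 → A' = ((p + c) / 2) ^ 2 - x' ^ 2 →
      p * c < A → p * c < A' → t ≤ A → A ≤ A' →
      c * p * (x ^ 2 + x' ^ 2) * t + c * ((p - c) / 2) * t ^ 2 < p * ((p - c) / 2) * (A * A') := by
    intro A A' x x' hA hA' hpA hpA' htA hAA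
    have hA0 : 0 < A := lt_of_le_of_lt (by positivity) hpA
    have h1 : c * p * (x ^ 2 + x' ^ 2) * t ≤ c * p * (x ^ 2 + x' ^ 2) * A :=
      mul_le_mul_of_nonneg_left htA (by positivity)
    have h2 : c * ((p - c) / 2) * t ^ 2 ≤ c * ((p - c) / 2) * A ^ 2 :=
      mul_le_mul_of_nonneg_left (pow_le_pow_left₀ ht htA 2)
        (mul_nonneg hc (by linarith))
    have h3 : x ^ 2 = ((p + c) / 2) ^ 2 - A := by linarith
    have h4 : x' ^ 2 = ((p + c) / 2) ^ 2 - A' := by linarith
    have h5 : 0 < p * A' + c * A - p * c * (p + c) := by nlinarith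
    have h6 : p * ((p - c) / 2) * (A * A') - (c * p * (x ^ 2 + x' ^ 2) * A +
        c * ((p - c) / 2) * A ^ 2) = A * ((p + c) / 2) * (p * A' + c * A - p * c * (p + c)) := by
      rw [h3, h4]
      ring
    have h7 : 0 < A * ((p + c) / 2) * (p * A' + c * A - p * c * (p + c)) := by positivity
    linarith
  rcases le_total A A' with h | h
  · exact key hA hA' hpA hpA' htA h
  · have := key hA' hA hpA' hpA htA' h
    rw [add_comm (x ^ 2), mul_comm A A']
    exact this

/-- the two-sided form of the positivity of the denominator -/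
theorem Z_abs {p c y11 y12 y21 y22 : ℝ} (hc : 0 ≤ c) (hcp : c < p)
    (h : y11 + y12 + y21 + y22 = p + c) (h11 : 0 ≤ y11) (h12 : 0 ≤ y12) (h21 : 0 ≤ y21)
    (h22 : 0 ≤ y22) (h1 : y11 + y12 < p) (h2 : y21 + y22 < p) (h1' : y11 + y21 < p)
    (h2' : y12 + y22 < p) :
    |2 * c * p * ((p - (y11 + y12)) - (p - c) / 2) * ((p - (y11 + y21)) - (p - c) / 2)
        * (y11 * y22 - y12 * y21)
      + c * ((p - c) / 2) * (y11 * y22 - y12 * y21) ^ 2|
      < p * ((p - c) / 2) * ((y11 + y12) * (y21 + y22) * (y11 + y21) * (y12 + y22)) := by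
  have hp : 0 < p := by linarith
  set x := (p - (y11 + y12)) - (p - c) / 2 with hx
  set x' := (p - (y11 + y21)) - (p - c) / 2 with hx'
  set d := y11 * y22 - y12 * y21 with hd
  have hA : (y11 + y12) * (y21 + y22) = ((p + c) / 2) ^ 2 - x ^ 2 := by
    rw [hx, ← h]
    have : p = y11 + y12 + y21 + y22 - c := by linarith
    rw [this]
    ring
  have hA' : (y11 + y21) * (y12 + y22) = ((p + c) / 2) ^ 2 - x' ^ 2 := by
    rw [hx', ← h]
    have : p = y11 + y12 + y21 + y22 - c := by linarith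
    rw [this]
    ring
  have hpA : p * c < (y11 + y12) * (y21 + y22) := by
    have e : (y11 + y12) * (y21 + y22) - p * c = (p - (y11 + y12)) * (p - (y21 + y22)) := by
      have : c = y11 + y12 + y21 + y22 - p := by linarith
      rw [this]
      ring
    have : 0 < (p - (y11 + y12)) * (p - (y21 + y22)) := mul_pos (by linarith) (by linarith)
    linarith
  have hpA' : p * c < (y11 + y21) * (y12 + y22) := by
    have e : (y11 + y21) * (y12 + y22) - p * c = (p - (y11 + y21)) * (p - (y12 + y22)) := by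
      have : c = y11 + y12 + y21 + y22 - p := by linarith
      rw [this]
      ring
    have : 0 < (p - (y11 + y21)) * (p - (y12 + y22)) := mul_pos (by linarith) (by linarith)
    linarith
  have htA : |d| ≤ (y11 + y12) * (y21 + y22) := by
    rw [abs_le]
    constructor <;> nlinarith [mul_nonneg h11 h22, mul_nonneg h12 h21, mul_nonneg h11 h21,
      mul_nonneg h12 h22]
  have htA' : |d| ≤ (y11 + y21) * (y12 + y22) := by
    rw [abs_le]
    constructor <;> nlinarith [mul_nonneg h11 h22, mul_nonneg h12 h21, mul_nonneg h11 h12,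
      mul_nonneg h21 h22]
  have key := Z_pos_aux hc hcp hA hA' hpA hpA' (abs_nonneg d) htA htA'
  have e1 : |2 * c * p * x * x' * d| ≤ c * p * (x ^ 2 + x' ^ 2) * |d| := by
    rw [abs_mul]
    refine mul_le_mul_of_nonneg_right ?_ (abs_nonneg d)
    have e : 2 * c * p * x * x' = c * p * (2 * x * x') := by ring
    rw [e, abs_mul, abs_of_nonneg (mul_nonneg hc hp.le)]
    refine mul_le_mul_of_nonneg_left ?_ (mul_nonneg hc hp.le)
    rw [abs_le]
    constructor <;> nlinarith [sq_nonneg (x + x'), sq_nonneg (x - x')]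
  have e2 : |c * ((p - c) / 2) * d ^ 2| = c * ((p - c) / 2) * |d| ^ 2 := by
    rw [abs_mul, abs_of_nonneg (mul_nonneg hc (by linarith)), abs_pow]
  calc _ ≤ |2 * c * p * x * x' * d| + |c * ((p - c) / 2) * d ^ 2| := abs_add_le _ _
    _ ≤ c * p * (x ^ 2 + x' ^ 2) * |d| + c * ((p - c) / 2) * |d| ^ 2 := by
        rw [e2]
        exact add_le_add e1 le_rfl
    _ < p * ((p - c) / 2) * ((y11 + y12) * (y21 + y22) * ((y11 + y21) * (y12 + y22))) := key
    _ = _ := by ring

/-- positivity of the denominator -/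
theorem Zp_pos {p c y11 y12 y21 y22 : ℝ} (hc : 0 ≤ c) (hcp : c < p)
    (h : y11 + y12 + y21 + y22 = p + c) (h11 : 0 ≤ y11) (h12 : 0 ≤ y12) (h21 : 0 ≤ y21)
    (h22 : 0 ≤ y22) (h1 : y11 + y12 < p) (h2 : y21 + y22 < p) (h1' : y11 + y21 < p)
    (h2' : y12 + y22 < p) : 0 < Zp p c y11 y12 y21 y22 := by
  have hP : 0 < p + c := by linarith
  rw [← Z_eq h hP.ne']
  have := (abs_lt.1 (Z_abs hc hcp h h11 h12 h21 h22 h1 h2 h1' h2')).2
  apply div_pos _ (by positivity)
  linarith

/-- the kernel with the polynomial forms -/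
theorem KK_eq {p c y11 y12 y21 y22 : ℝ} (h : y11 + y12 + y21 + y22 = p + c) (hP : p + c ≠ 0)
    (h1 : y11 + y12 ≤ p) (h2 : y21 + y22 ≤ p) (h1' : y11 + y21 ≤ p) (h2' : y12 + y22 ≤ p) :
    KK p c y11 y12 y21 y22 = (p - (y11 + y12)) * (p - (y21 + y22)) * (p - (y11 + y21))
      * (p - (y12 + y22)) * Gp p c y11 y12 y21 y22 / Zp p c y11 y12 y21 y22 ^ 2 := by
  unfold KK
  simp only
  rw [Z_eq h hP, G_eq h hP]
  split_ifs with hh
  · rfl
  · have : (p - (y11 + y12)) * (p - (y21 + y22)) * (p - (y11 + y21)) * (p - (y12 + y22)) = 0 := by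
      by_contra hne
      apply hh
      have e1 : p - (y11 + y12) ≠ 0 := fun e => hne (by rw [e]; ring)
      have e2 : p - (y21 + y22) ≠ 0 := fun e => hne (by rw [e]; ring)
      have e3 : p - (y11 + y21) ≠ 0 := fun e => hne (by rw [e]; ring)
      have e4 : p - (y12 + y22) ≠ 0 := fun e => hne (by rw [e]; ring)
      exact ⟨lt_of_le_of_ne (by linarith) e1.symm, lt_of_le_of_ne (by linarith) e2.symm,
        lt_of_le_of_ne (by linarith) e3.symm, lt_of_le_of_ne (by linarith) e4.symm⟩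
    rw [this]
    ring

theorem Zp_cell2 (p x11 x12 x21 x22 : ℝ) :
    Zp p (p - x12 - x22) x11 (p - x11 - x12) x21 (p - x21 - x22)
      = Zp p (x11 + x12 + x21 + x22 - p) x11 x12 x21 x22 := by
  unfold Zp
  ring

theorem Zp_cell1 (p x11 x12 x21 x22 : ℝ) :
    Zp p (p - x11 - x21) x12 (p - x11 - x12) x22 (p - x21 - x22)
      = Zp p (x11 + x12 + x21 + x22 - p) x11 x12 x21 x22 := by
  unfold Zp
  ring

/-- the polynomial identity of degree eight -/
theorem row_identity (p x11 x12 x21 x22 : ℝ) :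
    (p - x11 - x12) * (p - x21 - x22) * (p - x11 - x21) * (p - x12 - x22)
        * Gp p (x11 + x12 + x21 + x22 - p) x11 x12 x21 x22
      + x12 * x22 * (p - x11 - x21) * (x11 + x12 + x21 + x22 - p)
        * Gp p (p - x12 - x22) x11 (p - x11 - x12) x21 (p - x21 - x22)
      + x11 * x21 * (p - x12 - x22) * (x11 + x12 + x21 + x22 - p)
        * Gp p (p - x11 - x21) x12 (p - x11 - x12) x22 (p - x21 - x22)
      = Zp p (x11 + x12 + x21 + x22 - p) x11 x12 x21 x22 ^ 2 := by
  unfold Zp Gp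
  ring

theorem iden : IDEN := by
  intro p x11 x12 x13 x21 x22 x23 x31 x32 x33 r1 r2 r3 c1 c2 c3 l11 l12 l13 l21 l22 l23 l31 l32 l33
  have hcase : (0 < x13 ∧ 0 < x23 ∧ 0 < x31 ∧ 0 < x32) ∨
      (0 < x12 ∧ 0 < x22 ∧ 0 < x31 ∧ 0 < x33) ∨ (0 < x11 ∧ 0 < x21 ∧ 0 < x32 ∧ 0 < x33) := by
    omega
  have hp0 : 0 < p := by omega
  have R : ∀ {a b c : ℕ}, a + b + c = p → (a : ℝ) + b + c = p := by
    intro a b c h
    exact_mod_cast h
  have L : ∀ {a : ℕ}, a < p → (a : ℝ) < p := by
    intro a h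
    exact_mod_cast h
  have N : ∀ a : ℕ, (0 : ℝ) ≤ a := fun a => Nat.cast_nonneg a
  have r1' := R r1
  have r2' := R r2
  have r3' := R r3
  have c1' := R c1
  have c2' := R c2
  have c3' := R c3
  have hp0' : (0 : ℝ) < p := by exact_mod_cast hp0
  have n11 := N x11
  have n12 := N x12
  have n13 := N x13
  have n21 := N x21
  have n22 := N x22
  have n23 := N x23
  have n31 := N x31
  have n32 := N x32
  have n33 := N x33
  -- the three entries
  rw [KK_eq (by linarith) (by linarith) (by linarith) (by linarith) (by linarith) (by linarith),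
    KK_eq (by linarith) (by linarith) (by linarith) (by linarith) (by linarith) (by linarith),
    KK_eq (by linarith) (by linarith) (by linarith) (by linarith) (by linarith) (by linarith)]
  have hZ : 0 < Zp p x33 x11 x12 x21 x22 ∨ 0 < Zp p x32 x11 x13 x21 x23 ∨
      0 < Zp p x31 x12 x13 x22 x23 := by
    have C : ∀ {a : ℕ}, 0 < a → (0 : ℝ) < a := by
      intro a h
      exact_mod_cast h
    have l31' := L l31
    have l32' := L l32
    have l33' := L l33
    rcases hcase with ⟨h1, h2, h3, h4⟩ | ⟨h1, h2, h3, h4⟩ | ⟨h1, h2, h3, h4⟩ <;>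
      (have h1' := C h1; have h2' := C h2; have h3' := C h3; have h4' := C h4)
    · left
      exact Zp_pos n33 l33' (by linarith) n11 n12 n21 n22 (by linarith) (by linarith) (by linarith)
        (by linarith)
    · right
      left
      exact Zp_pos n32 l32' (by linarith) n11 n13 n21 n23 (by linarith) (by linarith) (by linarith)
        (by linarith)
    · right
      right
      exact Zp_pos n31 l31' (by linarith) n12 n13 n22 n23 (by linarith) (by linarith) (by linarith)
        (by linarith)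
  have e13 : (x13 : ℝ) = p - x11 - x12 := by linarith
  have e23 : (x23 : ℝ) = p - x21 - x22 := by linarith
  have e31 : (x31 : ℝ) = p - x11 - x21 := by linarith
  have e32 : (x32 : ℝ) = p - x12 - x22 := by linarith
  have e33 : (x33 : ℝ) = x11 + x12 + x21 + x22 - p := by linarith
  rw [e13, e23, e31, e32, e33] at hZ ⊢
  rw [Zp_cell2, Zp_cell1] at hZ ⊢
  have hZ' : 0 < Zp p (x11 + x12 + x21 + x22 - p) x11 x12 x21 x22 := by tauto
  rw [← add_div, ← add_div, div_eq_one_iff_eq (by positivity), ← row_identity]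
  ring

theorem kzero : KZERO := by
  intro p y11 y12 y21 y22 h h1 h2 h1' h2'
  have hR : (y11 : ℝ) + y12 + y21 + y22 = p := by exact_mod_cast h
  have C : ∀ {a b : ℕ}, 0 < a + b → (0 : ℝ) < a + b := by
    intro a b h
    exact_mod_cast h
  have g1 := C h1
  have g2 := C h2
  have g1' := C h1'
  have g2' := C h2'
  have hp : (0 : ℝ) < p := by linarith
  unfold KK
  simp only
  rw [if_pos ⟨by linarith, by linarith, by linarith, by linarith⟩]
  have e1 : (p : ℝ) - (y11 + y12) = y21 + y22 := by linarith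
  have e2 : (p : ℝ) - (y21 + y22) = y11 + y12 := by linarith
  have e3 : (p : ℝ) - (y11 + y21) = y12 + y22 := by linarith
  have e4 : (p : ℝ) - (y12 + y22) = y11 + y21 := by linarith
  rw [e1, e2, e3, e4]
  have hv : (0 : ℝ) < (y11 + y12) * (y21 + y22) * (y11 + y21) * (y12 + y22) := by positivity
  have hv1 : ((y21 : ℝ) + y22) * (y11 + y12) * (y12 + y22) * (y11 + y21) ≠ 0 := by positivity
  field_simp
  ring

end Pool.Agent.Hol.H86
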