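import Pool.Agent.Lib.MP_a60258_hol.H86.Iden
import Mathlib.Analysis.Matrix.Order

/-!
# Module KER: the kernel is positive semidefinite
-/

open Finset

namespace Pool.Agent.Hol.H86

section NN

variable {W : Type} [Fintype W]

/-- positive semidefinite real kernels on a finite set -/
def NN (K : W → W → ℝ) : Prop :=
  (∀ w w', K w w' = K w' w) ∧ ∀ x : W → ℝ, 0 ≤ ∑ w, ∑ w', K w w' * x w * x w'

theorem NN.iff (K : W → W → ℝ) : NN K ↔ (Matrix.of K).PosSemidef := by
  rw [Matrix.posSemidef_iff_dotProduct_mulVec]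
  constructor
  · rintro ⟨h1, h2⟩
    refine ⟨?_, fun x => ?_⟩
    · ext i j
      simp [h1 i j]
    · have := h2 x
      simp only [dotProduct, Matrix.mulVec, Finset.mul_sum, Matrix.of_apply, star_trivial]
      refine this.trans (le_of_eq ?_)
      refine Finset.sum_congr rfl fun w _ => Finset.sum_congr rfl fun w' _ => ?_
      ring
  · rintro ⟨h1, h2⟩
    refine ⟨fun w w' => ?_, fun x => ?_⟩
    · have := congrFun (congrFun h1 w') w
      simpa using this
    · have := h2 x
      simp only [dotProduct, Matrix.mulVec, Finset.mul_sum, Matrix.of_apply, star_trivial] at this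
      refine this.trans (le_of_eq ?_)
      refine Finset.sum_congr rfl fun w _ => Finset.sum_congr rfl fun w' _ => ?_
      ring

theorem NN.add {K L : W → W → ℝ} (hK : NN K) (hL : NN L) : NN (fun w w' => K w w' + L w w') := by
  refine ⟨fun w w' => by simp only [hK.1 w w', hL.1 w w'], fun x => ?_⟩
  have := add_nonneg (hK.2 x) (hL.2 x)
  refine this.trans (le_of_eq ?_)
  rw [← Finset.sum_add_distrib]
  refine Finset.sum_congr rfl fun w _ => ?_
  rw [← Finset.sum_add_distrib]
  refine Finset.sum_congr rfl fun w' _ => ?_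
  ring

theorem NN.smul {K : W → W → ℝ} (hK : NN K) {c : ℝ} (hc : 0 ≤ c) : NN (fun w w' => c * K w w') := by
  refine ⟨fun w w' => by simp only [hK.1 w w'], fun x => ?_⟩
  have := mul_nonneg hc (hK.2 x)
  refine this.trans (le_of_eq ?_)
  rw [Finset.mul_sum]
  refine Finset.sum_congr rfl fun w _ => ?_
  rw [Finset.mul_sum]
  refine Finset.sum_congr rfl fun w' _ => ?_
  ring

theorem NN.mul {K L : W → W → ℝ} (hK : NN K) (hL : NN L) : NN (fun w w' => K w w' * L w w') := by
  rw [NN.iff] at *
  exact hK.hadamard hL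

theorem NN.rank {f : W → ℝ} : NN (fun w w' => f w * f w') := by
  refine ⟨fun w w' => mul_comm _ _, fun x => ?_⟩
  have : 0 ≤ (∑ w, f w * x w) ^ 2 := sq_nonneg _
  refine this.trans (le_of_eq ?_)
  rw [sq, Finset.sum_mul_sum]
  refine Finset.sum_congr rfl fun w _ => Finset.sum_congr rfl fun w' _ => ?_
  ring

theorem NN.one : NN (fun _ _ : W => (1 : ℝ)) := by
  have := NN.rank (f := fun _ : W => (1 : ℝ))
  simpa using this

theorem NN.sum {ι : Type} (s : Finset ι) {K : ι → W → W → ℝ} (hK : ∀ i ∈ s, NN (K i)) :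
    NN (fun w w' => ∑ i ∈ s, K i w w') := by
  classical
  induction s using Finset.induction_on with
  | empty =>
    refine ⟨fun _ _ => rfl, fun x => ?_⟩
    simp
  | insert a s ha ih =>
    simp only [Finset.sum_insert ha]
    exact (hK a (Finset.mem_insert_self a s)).add
      (ih fun i hi => hK i (Finset.mem_insert_of_mem hi))

theorem NN.pow {K : W → W → ℝ} (hK : NN K) (n : ℕ) : NN (fun w w' => K w w' ^ n) := by
  induction n with
  | zero => simpa using NN.one
  | succ n ih =>
    simp only [pow_succ]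
    exact ih.mul hK

theorem NN.inv {K : W → W → ℝ} (hK : NN K) (h1 : ∀ w w', |K w w'| < 1) :
    NN (fun w w' => (1 - K w w')⁻¹) := by
  refine ⟨fun w w' => by simp only [hK.1 w w'], fun x => ?_⟩
  have hs : HasSum (fun n : ℕ => ∑ w, ∑ w', K w w' ^ n * x w * x w')
      (∑ w, ∑ w', (1 - K w w')⁻¹ * x w * x w') := by
    refine hasSum_sum fun w _ => hasSum_sum fun w' _ => ?_
    exact ((hasSum_geometric_of_abs_lt_one (h1 w w')).mul_right (x w)).mul_right (x w')
  exact hs.nonneg fun n => (hK.pow n).2 x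

/-- real kernels and complex vectors -/
theorem NN.complex {K : W → W → ℝ} (hK : NN K) (z : W → ℂ) :
    0 ≤ (∑ w, ∑ w', (K w w' : ℂ) * z w * (starRingEnd ℂ) (z w')).re := by
  have h := add_nonneg (hK.2 fun w => (z w).re) (hK.2 fun w => (z w).im)
  refine h.trans (le_of_eq ?_)
  rw [← Finset.sum_add_distrib, Complex.re_sum]
  refine Finset.sum_congr rfl fun w _ => ?_
  rw [← Finset.sum_add_distrib, Complex.re_sum]
  refine Finset.sum_congr rfl fun w' _ => ?_
  simp only [Complex.mul_re, Complex.mul_im, Complex.ofReal_re, Complex.ofReal_im,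
    Complex.conj_re, Complex.conj_im]
  ring

end NN

section Words

variable {n : ℕ}

/-- the number of letters `i` in a word -/
def c1 (w : Fin n → Fin 2) (i : Fin 2) : ℝ := (#{k | w k = i} : ℕ)

theorem c1_eq_sum (w : Fin n → Fin 2) (i : Fin 2) :
    c1 w i = ∑ k, (if w k = i then (1 : ℝ) else 0) := by
  unfold c1
  rw [Finset.card_filter]
  push_cast
  rfl

theorem ov_eq_sum (w w' : Fin n → Fin 2) (i j : Fin 2) :
    (ov w w' i j : ℝ) = ∑ k, (if w k = i then (1 : ℝ) else 0) * (if w' k = j then (1 : ℝ) else 0) := by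
  unfold ov
  rw [Finset.card_filter]
  push_cast
  refine Finset.sum_congr rfl fun k _ => ?_
  by_cases h1 : w k = i <;> by_cases h2 : w' k = j <;> simp [h1, h2]

theorem row_ov (w w' : Fin n → Fin 2) (i : Fin 2) :
    (ov w w' i 0 : ℝ) + ov w w' i 1 = c1 w i := by
  rw [ov_eq_sum, ov_eq_sum, c1_eq_sum, ← Finset.sum_add_distrib]
  refine Finset.sum_congr rfl fun k _ => ?_
  rw [← mul_add]
  have : (if w' k = 0 then (1 : ℝ) else 0) + (if w' k = 1 then (1 : ℝ) else 0) = 1 := by
    have h : w' k = 0 ∨ w' k = 1 := by omega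
    rcases h with h | h <;> simp [h]
  rw [this, mul_one]

theorem col_ov (w w' : Fin n → Fin 2) (j : Fin 2) :
    (ov w w' 0 j : ℝ) + ov w w' 1 j = c1 w' j := by
  rw [ov_eq_sum, ov_eq_sum, c1_eq_sum, ← Finset.sum_add_distrib]
  refine Finset.sum_congr rfl fun k _ => ?_
  rw [← add_mul]
  have : (if w k = 0 then (1 : ℝ) else 0) + (if w k = 1 then (1 : ℝ) else 0) = 1 := by
    have h : w k = 0 ∨ w k = 1 := by omega
    rcases h with h | h <;> simp [h]
  rw [this, one_mul]

theorem c1_add (w : Fin n → Fin 2) : c1 w 0 + c1 w 1 = n := by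
  rw [c1_eq_sum, c1_eq_sum, ← Finset.sum_add_distrib]
  have : ∀ k ∈ (univ : Finset (Fin n)), (if w k = 0 then (1 : ℝ) else 0) +
      (if w k = 1 then (1 : ℝ) else 0) = 1 := by
    intro k _
    have h : w k = 0 ∨ w k = 1 := by omega
    rcases h with h | h <;> simp [h]
  rw [Finset.sum_congr rfl this]
  simp

/-- the determinant -/
noncomputable def dd (w w' : Fin n → Fin 2) : ℝ :=
  (ov w w' 0 0 : ℝ) * ov w w' 1 1 - (ov w w' 0 1 : ℝ) * ov w w' 1 0

theorem NN_dd : NN (dd (n := n)) := by
  rcases Nat.eq_zero_or_pos n with rfl | hn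
  · have : dd (n := 0) = fun w w' => (0 : (Fin 0 → Fin 2) → ℝ) w * (0 : (Fin 0 → Fin 2) → ℝ) w' := by
      funext w w'
      simp [dd, ov]
    rw [this]
    exact NN.rank
  · have hn' : (n : ℝ) ≠ 0 := by positivity
    have e : dd (n := n) = fun w w' => (n : ℝ) * ∑ k : Fin n,
        ((if w k = 0 then (1 : ℝ) else 0) - c1 w 0 / n) *
          ((if w' k = 0 then (1 : ℝ) else 0) - c1 w' 0 / n) := by
      funext w w'
      have h1 := row_ov w w' 0
      have h2 := row_ov w w' 1
      have h3 := col_ov w w' 0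
      have h4 := c1_add w
      have e1 : ∑ k : Fin n, ((if w k = 0 then (1 : ℝ) else 0) - c1 w 0 / n) *
          ((if w' k = 0 then (1 : ℝ) else 0) - c1 w' 0 / n)
          = ov w w' 0 0 - c1 w 0 * c1 w' 0 / n := by
        have : ∀ k ∈ (univ : Finset (Fin n)),
            ((if w k = 0 then (1 : ℝ) else 0) - c1 w 0 / n) *
              ((if w' k = 0 then (1 : ℝ) else 0) - c1 w' 0 / n)
            = (if w k = 0 then (1 : ℝ) else 0) * (if w' k = 0 then (1 : ℝ) else 0)
              - c1 w 0 / n * (if w' k = 0 then (1 : ℝ) else 0)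
              - c1 w' 0 / n * (if w k = 0 then (1 : ℝ) else 0) + c1 w 0 / n * (c1 w' 0 / n) := by
          intro k _
          ring
        rw [Finset.sum_congr rfl this, Finset.sum_add_distrib, Finset.sum_sub_distrib,
          Finset.sum_sub_distrib, ← ov_eq_sum, ← Finset.mul_sum, ← Finset.mul_sum,
          ← c1_eq_sum, ← c1_eq_sum]
        simp only [Finset.sum_const, Finset.card_univ, Fintype.card_fin, nsmul_eq_mul]
        field_simp
        ring
      rw [e1]
      unfold dd
      have h5 : (ov w w' 0 1 : ℝ) = c1 w 0 - ov w w' 0 0 := by linarith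
      have h6 : (ov w w' 1 0 : ℝ) = c1 w' 0 - ov w w' 0 0 := by linarith
      have h7 : (ov w w' 1 1 : ℝ) = n - c1 w 0 - c1 w' 0 + ov w w' 0 0 := by linarith
      rw [h5, h6, h7]
      field_simp
      ring
    rw [e]
    exact (NN.sum _ fun k _ => NN.rank).smul (by positivity)

end Words

section Kernel

variable (p c : ℕ)

/-- the good words -/
def good (w : Fin (p + c) → Fin 2) : Prop := c1 w 0 < p ∧ c1 w 1 < p

open Classical in
/-- the reciprocal of `n1 n2` on good words -/
noncomputable def hh (w : Fin (p + c) → Fin 2) : ℝ :=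
  if good p c w then (c1 w 0 * c1 w 1)⁻¹ else 0

/-- the function `xi = a - s` -/
noncomputable def xx (w : Fin (p + c) → Fin 2) : ℝ := (p - c1 w 0) - ((p : ℝ) - c) / 2

/-- the kernel `rho` -/
noncomputable def rho (w w' : Fin (p + c) → Fin 2) : ℝ :=
  2 * c / (((p : ℝ) - c) / 2) * ((xx p c w * hh p c w) * (xx p c w' * hh p c w') * dd w w')
    + c / p * ((hh p c w * hh p c w') * (dd w w' * dd w w'))

theorem NN_rho (hcp : c < p) : NN (rho p c) := by
  have hcp' : (c : ℝ) < p := by exact_mod_cast hcp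
  have h1 : NN (fun w w' : Fin (p + c) → Fin 2 =>
      (xx p c w * hh p c w) * (xx p c w' * hh p c w') * dd w w') :=
    (NN.rank (f := fun w => xx p c w * hh p c w)).mul NN_dd
  have h2 : NN (fun w w' : Fin (p + c) → Fin 2 =>
      (hh p c w * hh p c w') * (dd w w' * dd w w')) :=
    (NN.rank (f := hh p c)).mul (NN_dd.mul NN_dd)
  exact (h1.smul (div_nonneg (by positivity) (by linarith))).add (h2.smul (by positivity))

theorem good_pos {w : Fin (p + c) → Fin 2} (hw : good p c w) :
    0 < c1 w 0 * c1 w 1 := by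
  have h := c1_add w
  push_cast at h
  have hc : (0 : ℝ) ≤ c := Nat.cast_nonneg c
  have h1 : 0 < c1 w 0 := by linarith [hw.2]
  have h2 : 0 < c1 w 1 := by linarith [hw.1]
  positivity

theorem rho_lt (hcp : c < p) (w w' : Fin (p + c) → Fin 2) : |rho p c w w'| < 1 := by
  have hcp' : (c : ℝ) < p := by exact_mod_cast hcp
  have hc : (0 : ℝ) ≤ c := Nat.cast_nonneg c
  have hp : (0 : ℝ) < p := by linarith
  by_cases hw : good p c w
  · by_cases hw' : good p c w'
    · have g := good_pos p c hw
      have g' := good_pos p c hw'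
      have h1 := row_ov w w' 0
      have h2 := row_ov w w' 1
      have h3 := col_ov w w' 0
      have h4 := col_ov w w' 1
      have h5 := c1_add w
      push_cast at h5
      have key := Z_abs (p := p) (c := c) (y11 := ov w w' 0 0) (y12 := ov w w' 0 1)
        (y21 := ov w w' 1 0) (y22 := ov w w' 1 1) hc hcp' (by linarith) (Nat.cast_nonneg _)
        (Nat.cast_nonneg _) (Nat.cast_nonneg _) (Nat.cast_nonneg _) (by rw [h1]; exact hw.1)
        (by rw [h2]; exact hw.2) (by rw [h3]; exact hw'.1) (by rw [h4]; exact hw'.2)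
      rw [h1, h2, h3, h4] at key
      have hs : 0 < ((p : ℝ) - c) / 2 := by linarith
      have hD : 0 < (p : ℝ) * (((p : ℝ) - c) / 2) * (c1 w 0 * c1 w 1 * c1 w' 0 * c1 w' 1) := by
        have : c1 w 0 * c1 w 1 * c1 w' 0 * c1 w' 1 = (c1 w 0 * c1 w 1) * (c1 w' 0 * c1 w' 1) := by
          ring
        rw [this]
        positivity
      have e : rho p c w w' = (2 * c * p * ((p - c1 w 0) - (p - c) / 2) *
          ((p - c1 w' 0) - (p - c) / 2) * dd w w' + c * ((p - c) / 2) * dd w w' ^ 2) /
          (p * ((p - c) / 2) * (c1 w 0 * c1 w 1 * c1 w' 0 * c1 w' 1)) := by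
        rw [eq_div_iff hD.ne']
        unfold rho hh
        rw [if_pos hw, if_pos hw']
        unfold xx
        have n1 : c1 w 0 ≠ 0 := left_ne_zero_of_mul g.ne'
        have n2 : c1 w 1 ≠ 0 := right_ne_zero_of_mul g.ne'
        have n3 : c1 w' 0 ≠ 0 := left_ne_zero_of_mul g'.ne'
        have n4 : c1 w' 1 ≠ 0 := right_ne_zero_of_mul g'.ne'
        have n5 : (p : ℝ) - c ≠ 0 := by linarith
        field_simp
      rw [e, abs_div, abs_of_pos hD, div_lt_one hD]
      exact key
    · have : rho p c w w' = 0 := by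
        unfold rho hh
        rw [if_neg hw']
        ring
      rw [this]
      simp
  · have : rho p c w w' = 0 := by
      unfold rho hh
      rw [if_neg hw]
      ring
    rw [this]
    simp

/-- the factor `a b / (n1 n2)` -/
noncomputable def gg (w : Fin (p + c) → Fin 2) : ℝ := (p - c1 w 0) * (p - c1 w 1) * hh p c w

theorem KK_factor (hcp : c < p) (w w' : Fin (p + c) → Fin 2) :
    KK p c (ov w w' 0 0) (ov w w' 0 1) (ov w w' 1 0) (ov w w' 1 1)
      = 2 * (((p : ℝ) + c) / 2) ^ 3 / (p ^ 2 * (((p : ℝ) - c) / 2) ^ 2) *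
        ((gg p c w * gg p c w') * ((p * 1 + c * ((hh p c w * hh p c w') * (dd w w' * dd w w'))) *
          ((1 - rho p c w w')⁻¹ * (1 - rho p c w w')⁻¹))) := by
  have hcp' : (c : ℝ) < p := by exact_mod_cast hcp
  have hc : (0 : ℝ) ≤ c := Nat.cast_nonneg c
  have hp : (0 : ℝ) < p := by linarith
  have h1 := row_ov w w' 0
  have h2 := row_ov w w' 1
  have h3 := col_ov w w' 0
  have h4 := col_ov w w' 1
  unfold KK
  simp only
  rw [h1, h2, h3, h4]
  change (if _ then _ * ((_ + _ * dd w w' ^ 2) / _) /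
    ((_ - _ * dd w w' - _ * dd w w' ^ 2) / _) ^ 2 else 0) = _
  by_cases hw : good p c w
  · by_cases hw' : good p c w'
    · rw [if_pos ⟨by linarith [hw.1], by linarith [hw.2], by linarith [hw'.1], by linarith [hw'.2]⟩]
      have g := good_pos p c hw
      have g' := good_pos p c hw'
      have n1 : c1 w 0 ≠ 0 := left_ne_zero_of_mul g.ne'
      have n2 : c1 w 1 ≠ 0 := right_ne_zero_of_mul g.ne'
      have n3 : c1 w' 0 ≠ 0 := left_ne_zero_of_mul g'.ne'
      have n4 : c1 w' 1 ≠ 0 := right_ne_zero_of_mul g'.ne'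
      have n5 : (p : ℝ) - c ≠ 0 := by linarith
      have n6 : (p : ℝ) + c ≠ 0 := by positivity
      have hr : 1 - rho p c w w' ≠ 0 := by
        have := (abs_lt.1 (rho_lt p c hcp w w')).2
        linarith
      have eZ : p * ((p - c) / 2) * (c1 w 0 * c1 w 1 * c1 w' 0 * c1 w' 1)
          - 2 * c * p * ((p - c1 w 0) - (p - c) / 2) * ((p - c1 w' 0) - (p - c) / 2) * dd w w'
          - c * ((p - c) / 2) * dd w w' ^ 2
          = p * (((p : ℝ) - c) / 2) * (c1 w 0 * c1 w 1 * c1 w' 0 * c1 w' 1) *
            (1 - rho p c w w') := by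
        unfold rho hh xx
        rw [if_pos hw, if_pos hw']
        field_simp
        ring
      rw [eZ]
      generalize 1 - rho p c w w' = r at hr
      unfold gg hh
      rw [if_pos hw, if_pos hw']
      field_simp
    · have : gg p c w' = 0 := by
        unfold gg hh
        rw [if_neg hw']
        ring
      rw [this, if_neg]
      · ring
      · rintro ⟨_, _, h5, h6⟩
        exact hw' ⟨by linarith, by linarith⟩
  · have : gg p c w = 0 := by
      unfold gg hh
      rw [if_neg hw]
      ring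
    rw [this, if_neg]
    · ring
    · rintro ⟨h5, h6, _, _⟩
      exact hw ⟨by linarith, by linarith⟩

theorem ker : KER := by
  intro p c hcp z
  have hcp' : (c : ℝ) < p := by exact_mod_cast hcp
  have hi := (NN_rho p c hcp).inv (rho_lt p c hcp)
  have hF : NN (fun w w' : Fin (p + c) → Fin 2 =>
      (p : ℝ) * 1 + c * ((hh p c w * hh p c w') * (dd w w' * dd w w'))) :=
    (NN.one.smul (Nat.cast_nonneg p)).add
      (((NN.rank (f := hh p c)).mul (NN_dd.mul NN_dd)).smul (Nat.cast_nonneg c))
  have hK := ((NN.rank (f := gg p c)).mul (hF.mul (hi.mul hi))).smul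
    (c := 2 * (((p : ℝ) + c) / 2) ^ 3 / (p ^ 2 * (((p : ℝ) - c) / 2) ^ 2)) (by positivity)
  have h := hK.complex z
  simp only [← KK_factor p c hcp] at h
  exact h

end Kernel

end Pool.Agent.Hol.H86
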